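import Mathlib
import Pool.Agent.H238R3.UL.ShortD

set_option autoImplicit false

/-! # MP_f2d454_nt: short arithmetic progressions in the exceptional set of the mixed Littlewood
conjecture

Let `D = (d_k)` be a sequence of integers `≥ 2` with `d_k ≤ M` for all large `k`, and let
`t_n = d_1 ⋯ d_n`. For `ε > 0` let `V_ε` be the set of all real `β` for which only finitely many `q`
satisfy `q |q|_D ‖qβ‖ < ε`. The mixed Littlewood conjecture says that all the `V_ε` are empty. We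
show that, for `ε ≤ 1/2`, the set `V_ε` contains no arithmetic progression with at least
`(M + 2) / (2 ε)` terms, unless a multiple `b t_n θ`, `1 ≤ b ≤ 1 / (2 ε)`, `n ≥ 0`, of its common
difference `θ` is an integer. In particular, for every `N ≥ M + 2` the smallest of the numbers
`liminf q |q|_D ‖q(β + lθ)‖`, `0 ≤ l < N`, is at most `(M + 2) / (2 N)`, for all real `β` and all
irrational `θ`. An arbitrary inhomogeneous shift `γ` of `qβ` is allowed. -/

open Filter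

namespace Pool.Agent.Results.MP_f2d454_nt.ShortProgressions

/-- `t_n = d_1 ⋯ d_n` -/
def tD (d : ℕ → ℕ) (n : ℕ) : ℕ := ∏ k ∈ Finset.Icc 1 n, d k

/-- `q |q|_D ‖qβ - γ‖ < ε` for infinitely many `q` (here `|q|_D = 1 / t_n` with the largest `n`
such that `t_n` divides `q`) -/
def Good (d : ℕ → ℕ) (ε β γ : ℝ) : Prop :=
  ∃ᶠ q : ℕ in atTop, ∃ n : ℕ, tD d n ∣ q ∧ ¬ (tD d (n + 1) ∣ q) ∧
    (q : ℝ) / (tD d n : ℝ) * |(q * β - γ) - round (q * β - γ)| < ε

lemma tD_succ (d : ℕ → ℕ) (n : ℕ) : tD d (n + 1) = d (n + 1) * tD d n := by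
  rw [tD, tD, Finset.prod_Icc_succ_top (by omega), mul_comm]

lemma tD_large (d : ℕ → ℕ) (hd : ∀ k, 1 ≤ k → 2 ≤ d k) (n : ℕ) : n < tD d n := by
  induction n with
  | zero => simp [tD]
  | succ n ih =>
    rw [tD_succ]
    have h1 := hd (n + 1) (by omega)
    nlinarith

theorem result (d : ℕ → ℕ) (hd : ∀ k, 1 ≤ k → 2 ≤ d k) (M : ℕ) (hM : ∀ᶠ k in atTop, d k ≤ M)
    (ε : ℝ) (hε : 0 < ε) (hε2 : ε ≤ 1 / 2) (N : ℕ) (hN : ((M : ℝ) + 2) / (2 * ε) ≤ N)
    (β θ γ : ℝ)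
    (hθ : ∀ b n : ℕ, 1 ≤ b → 2 * ε * b ≤ 1 → ∀ c : ℤ, (b : ℝ) * (tD d n : ℝ) * θ ≠ c) :
    ∃ l : ℕ, l < N ∧ Good d ε (β + l * θ) γ := by
  obtain ⟨K0, hK0⟩ := eventually_atTop.1 hM
  obtain ⟨l, hl, h⟩ := Pool.Agent.H238R3.UL.shortD (tD d) (fun k => d (k + 1)) M K0
    (fun k _ => hd (k + 1) (by omega)) (fun k hk => by exact_mod_cast hK0 (k + 1) (by omega))
    (fun k _ => tD_succ d k) β θ γ ε hε hε2 N hN hθ
  refine ⟨l, hl, ?_⟩
  rw [Good, frequently_atTop]
  rw [frequently_atTop] at h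
  intro a
  obtain ⟨k, hk, hlt⟩ := h a
  have hpos : 0 < tD d k := by
    have := tD_large d hd k
    omega
  refine ⟨tD d k, hk.trans (tD_large d hd k).le, k, dvd_rfl, ?_, ?_⟩
  · intro hdiv
    have h1 := Nat.le_of_dvd hpos hdiv
    rw [tD_succ] at h1
    have h2 := hd (k + 1) (by omega)
    nlinarith
  · have h3 : ((tD d k : ℕ) : ℝ) ≠ 0 := by exact_mod_cast hpos.ne'
    rw [div_self h3, one_mul]
    exact hlt

end Pool.Agent.Results.MP_f2d454_nt.ShortProgressions
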